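import Pool.Agent.helper28.E11434

/-!
# MP_e11434_an: slices, SCD sets, the Daugavet property; the 1-unconditional basis of the tree space
-/

set_option autoImplicit false

namespace Pool.Agent.E11434

open Set Topology

/-- The slice of the set `A` given by the functional `f` and `ε`. -/
def slice {X : Type*} [NormedAddCommGroup X] [NormedSpace ℝ X] (A : Set X) (f : X →L[ℝ] ℝ)
    (ε : ℝ) : Set X :=
  {x ∈ A | sSup (f '' A) - ε < f x}

/-- The set `A` is slicely countably determined: some sequence of slices of `A` (by nonzero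
functionals, `ε > 0`) is determining for `A`. -/
def SCD {X : Type*} [NormedAddCommGroup X] [NormedSpace ℝ X] (A : Set X) : Prop :=
  ∃ (f : ℕ → X →L[ℝ] ℝ) (ε : ℕ → ℝ), (∀ n, f n ≠ 0 ∧ 0 < ε n) ∧
    ∀ B : Set X, (∀ n, (B ∩ slice A (f n) (ε n)).Nonempty) → A ⊆ closure (convexHull ℝ B)

/-- The Daugavet property: every rank-one operator satisfies the Daugavet equation. -/
def Daugavet (Y : Type*) [NormedAddCommGroup Y] [NormedSpace ℝ Y] : Prop :=
  ∀ (f : Y →L[ℝ] ℝ) (v : Y), ‖ContinuousLinearMap.id ℝ Y + f.smulRight v‖ = 1 + ‖f.smulRight v‖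

/-- multiplying an admissible function by numbers of modulus at most one -/
noncomputable def mulI (s : List ℕ → ℝ) (hs : ∀ t, |s t| ≤ 1) (g : I) : I :=
  ⟨fun t => s t * g.1 t, by
    obtain ⟨g, h1, h2, h3⟩ := g
    have key : ∀ t, s t * g t ≠ 0 → g t ≠ 0 := fun t ht h => ht (by rw [h, mul_zero])
    refine ⟨fun t => ?_, fun a t ha ht => h2 a t (key a ha) (key t ht),
      fun n m t hn hm => h3 n m t (key _ hn) (key _ hm)⟩
    show |s t * g t| ≤ 1
    rw [abs_mul]
    exact mul_le_one₀ (hs t) (abs_nonneg _) (h1 t)⟩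

theorem sum_eq_P (A : Finset (List ℕ)) (s : List ℕ → ℝ) (x : X) (g : I) (hs : ∀ t, |s t| ≤ 1) :
    ev g (∑ t ∈ A, (s t * ev (dlt t) x) • eX t) = ev (mulI s hs g) (P A x) := by
  rw [P_apply, map_sum, map_sum]
  refine Finset.sum_congr rfl fun t _ => ?_
  rw [map_smul, map_smul, ev_eX, ev_eX, smul_eq_mul, smul_eq_mul]
  show s t * ev (dlt t) x * g.1 t = ev (dlt t) x * (s t * g.1 t)
  ring

theorem norm_sum_le (A : Finset (List ℕ)) (s : List ℕ → ℝ) (hs : ∀ t, |s t| ≤ 1) (x : X) :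
    ‖∑ t ∈ A, (s t * ev (dlt t) x) • eX t‖ ≤ ‖x‖ := by
  refine norm_X_le _ _ (norm_nonneg _) (fun g => ?_)
  rw [sum_eq_P A s x g hs]
  exact (le_norm_X _ _).trans (norm_P_le A x)

theorem hasSum_X (x : X) : HasSum (fun t => ev (dlt t) x • eX t) x := by
  rw [HasSum, SummationFilter.unconditional_filter, Metric.tendsto_atTop]
  intro ε hε
  obtain ⟨B, hB⟩ := P_tendsto x ε hε
  refine ⟨B, fun B' h => ?_⟩
  rw [dist_eq_norm, ← P_apply]
  exact hB B' h

/-- The tree space: main theorem. -/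
theorem tree_space :
    ∃ (X : Type) (_ : NormedAddCommGroup X) (_ : NormedSpace ℝ X),
      CompleteSpace X ∧ TopologicalSpace.SeparableSpace X ∧
      (∃ (e : ℕ → X) (φ : ℕ → X →L[ℝ] ℝ),
        (∀ i j, φ i (e j) = if i = j then 1 else 0) ∧
        (∀ x, HasSum (fun i => φ i x • e i) x) ∧
        ∀ (x : X) (A : Finset ℕ) (s : ℕ → ℝ), (∀ i, |s i| ≤ 1) →
          ‖∑ i ∈ A, (s i * φ i x) • e i‖ ≤ ‖x‖) ∧
      (∃ A : Set X, A.Nonempty ∧ Convex ℝ A ∧ Bornology.IsBounded A ∧ ¬ SCD A) ∧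
      ∀ (Y : Type) [NormedAddCommGroup Y] [NormedSpace ℝ Y], (X ≃L[ℝ] Y) → ¬ Daugavet Y := by
  let q : ℕ ≃ List ℕ := (Denumerable.eqv (List ℕ)).symm
  refine ⟨X, inferInstance, inferInstance, inferInstance, inferInstance,
    ⟨fun i => eX (q i), fun i => ev (dlt (q i)), ?_, ?_, ?_⟩,
    ⟨convexHull ℝ (range xX), ⟨_, subset_convexHull ℝ _ ⟨[], rfl⟩⟩, convex_convexHull ℝ _, ?_, ?_⟩,
    ?_⟩
  · intro i j
    rw [ev_eX, dlt_apply]
    by_cases h : i = j
    · simp [h]
    · rw [if_neg h, if_neg]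
      intro h'
      exact h (q.injective h').symm
  · intro x
    exact (q.hasSum_iff (f := fun t => ev (dlt t) x • eX t)).2 (hasSum_X x)
  · intro x A s hs
    have h := norm_sum_le (A.map q.toEmbedding) (fun t => s (q.symm t)) (fun t => hs _) x
    rw [Finset.sum_map] at h
    simpa using h
  · rw [isBounded_convexHull, isBounded_iff_forall_norm_le]
    refine ⟨1, ?_⟩
    rintro _ ⟨t, rfl⟩
    exact norm_xX_le t
  · rintro ⟨f, ε, hfε, hdet⟩
    have hne : ∀ n, ∃ x ∈ convexHull ℝ (range xX),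
        sSup (f n '' convexHull ℝ (range xX)) - ε n < f n x := by
      intro n
      have h1 : (f n '' convexHull ℝ (range xX)).Nonempty :=
        ⟨_, _, subset_convexHull ℝ _ ⟨[], rfl⟩, rfl⟩
      obtain ⟨_, ⟨x, hx, rfl⟩, h2⟩ := exists_lt_of_lt_csSup h1
        (show sSup (f n '' convexHull ℝ (range xX)) - ε n < sSup (f n '' convexHull ℝ (range xX))
          by linarith [(hfε n).2])
      exact ⟨x, hx, h2⟩
    obtain ⟨y, hy1, hy2⟩ := not_SCD f
      (fun n => sSup (f n '' convexHull ℝ (range xX)) - ε n) hne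
    exact hy2 (hdet (range y) (fun n => ⟨y n, ⟨n, rfl⟩, (hy1 n).1, (hy1 n).2⟩))
  · intro Y _ _ Φ hDP
    exact no_DP Φ hDP

end Pool.Agent.E11434
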